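import Pool.Agent.X34.CY.Stm

namespace Pool.Agent.X21.CY

open Pool.Agent.X34.CY Finset Filter Topology

lemma choose_bound (x : ℝ) (hx : 0 < x) (k s : ℕ) :
    ((k + s).choose s : ℝ) * x ^ s ≤ (1 + x) ^ (k + s) := by
  rw [add_comm 1 x, add_pow]
  have h := Finset.single_le_sum (f := fun m => x ^ m * 1 ^ (k + s - m) * ((k + s).choose m : ℝ))
    (s := Finset.range (k + s + 1)) (fun i _ => by positivity)
    (Finset.mem_range.2 (by omega : s < k + s + 1))
  refine le_trans (le_of_eq ?_) h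
  simp; ring

theorem t_AN2 : S_AN2 := by
  intro c ε δ hc hε hε1 hδ
  obtain ⟨x, hx⟩ : ∃ x : ℝ, x = ε / 16 := ⟨_, rfl⟩
  have hx0 : 0 < x := by rw [hx]; positivity
  have hx1 : x ≤ 1 := by rw [hx]; linarith
  set ρ := 1 + ε / 8 with hρ
  have hρx : 1 < ρ / (1 + x) := by
    rw [lt_div_iff₀ (by positivity), hρ, hx]; linarith
  have h4x : 1 < 4 / x := by
    rw [lt_div_iff₀ hx0]; linarith
  set η := Real.log (ρ / (1 + x)) / (2 * Real.log (4 / x)) with hη
  have hlog4 : 0 < Real.log (4 / x) := Real.log_pos h4x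
  have hη0 : 0 < η := div_pos (Real.log_pos hρx) (by positivity)
  have hηeq : (4 / x) ^ (2 * η) = ρ / (1 + x) := by
    rw [Real.rpow_def_of_pos (by positivity)]
    have : Real.log (4 / x) * (2 * η) = Real.log (ρ / (1 + x)) := by
      rw [hη]; field_simp
    rw [this, Real.exp_log (by positivity)]
  set θ := (1 + ε / 8) / (1 + ε / 2) with hθ
  have hθ0 : 0 < θ := by positivity
  have hθ1 : θ < 1 := by rw [hθ, div_lt_one (by positivity)]; linarith
  set m := ⌈2 / c⌉₊ with hm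
  have hmc : 2 / c ≤ (m : ℝ) := Nat.le_ceil _
  -- K^(-c/2) ≤ η eventually
  have ev1 : ∀ᶠ K : ℕ in atTop, ((K : ℝ)) ^ (-(c / 2)) ≤ η := by
    have h := (tendsto_rpow_neg_atTop (by positivity : 0 < c / 2)).comp
      (tendsto_natCast_atTop_atTop (R := ℝ))
    have h2 := h.eventually (ge_mem_nhds hη0)
    filter_upwards [h2] with K hK
    exact hK
  have ev2 : ∀ᶠ k : ℕ in atTop, 6 * 2 ^ m * ((k : ℝ) ^ (m + 2) * θ ^ k) ≤ δ := by
    have h := (tendsto_pow_const_mul_const_pow_of_abs_lt_one (m + 2)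
      (by rw [abs_of_pos hθ0]; exact hθ1 : |θ| < 1)).const_mul (6 * 2 ^ m : ℝ)
    rw [mul_zero] at h
    exact h.eventually (ge_mem_nhds hδ)
  obtain ⟨K1, hK1⟩ := eventually_atTop.1 ev1
  obtain ⟨K2, hK2⟩ := eventually_atTop.1 ev2
  refine ⟨max (max K1 K2) 1, ?_⟩
  intro k n R Wc B hKk hKR hWc hn hB
  set K := max (max K1 K2) 1 with hK
  have hK1' : 1 ≤ K := le_max_right _ _
  have hKη : ((K : ℝ)) ^ (-(c / 2)) ≤ η := hK1 K (le_trans (le_max_left _ _) (le_max_left _ _))
  have hkδ := hK2 k (le_trans (le_trans (le_max_right _ _) (le_max_left _ _)) hKk)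
  have hk1 : 1 ≤ k := le_trans hK1' hKk
  have hk0 : (0 : ℝ) < k := by exact_mod_cast hk1
  have hk1' : (1 : ℝ) ≤ k := by exact_mod_cast hk1
  have hK1r : (1 : ℝ) ≤ K := by exact_mod_cast hK1'
  set y := (R : ℝ) / k with hy
  have hyK : (K : ℝ) ≤ y := by rw [hy, le_div_iff₀ hk0]; exact hKR
  have hy1 : 1 ≤ y := le_trans hK1r hyK
  have hy0 : 0 < y := by linarith
  have hRy : (R : ℝ) = k * y := by rw [hy]; field_simp
  have hysplit : y ^ (1 + c / 2) = y * y ^ (c / 2) := by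
    rw [Real.rpow_add hy0, Real.rpow_one]
  -- bound of each term
  have hterm : ∀ g ∈ (Icc 2 (2 * R)).filter (fun g : ℕ => y ^ (1 + c / 2) < g),
      (n : ℝ) * (B g : ℝ) / Wc ≤ 3 * k * θ ^ k := by
    intro g hg
    rw [mem_filter, mem_Icc] at hg
    obtain ⟨⟨hg2, hgR⟩, hgy⟩ := hg
    have hg0 : (0 : ℝ) < g := by exact_mod_cast (by omega : 0 < g)
    set s := 2 * R / g with hs
    have hs1 : (s : ℝ) ≤ 2 * k * η := by
      have e1 : (s : ℝ) ≤ (2 * R : ℝ) / g := by
        have := Nat.cast_div_le (α := ℝ) (m := 2 * R) (n := g)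
        push_cast at this
        exact this
      have e2 : (2 * R : ℝ) / g ≤ (2 * R : ℝ) / y ^ (1 + c / 2) :=
        div_le_div_of_nonneg_left (by positivity) (by positivity) hgy.le
      have e3 : (2 * R : ℝ) / y ^ (1 + c / 2) = 2 * k * y ^ (-(c / 2)) := by
        rw [hysplit, hRy, Real.rpow_neg hy0.le]
        field_simp
      have e4 : y ^ (-(c / 2)) ≤ (K : ℝ) ^ (-(c / 2)) :=
        Real.rpow_le_rpow_of_nonpos (by linarith) hyK (by linarith)
      have e5 : 2 * (k : ℝ) * y ^ (-(c / 2)) ≤ 2 * k * η :=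
        mul_le_mul_of_nonneg_left (le_trans e4 hKη) (by positivity)
      linarith
    have hBg : (B g : ℝ) ≤ ρ ^ k := by
      have b1 : (B g : ℝ) ≤ 2 ^ s * ((k + s).choose s : ℝ) := by
        exact_mod_cast hB g (by omega)
      have b2 := choose_bound x hx0 k s
      have b3 : ((k + s).choose s : ℝ) ≤ (1 + x) ^ (k + s) / x ^ s := by
        rw [le_div_iff₀ (by positivity)]; exact b2
      have b4 : 2 ^ s * ((1 + x) ^ (k + s) / x ^ s) = (1 + x) ^ k * (2 * (1 + x) / x) ^ s := by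
        rw [pow_add, div_pow, mul_pow]; ring
      have b5 : (2 * (1 + x) / x) ^ s ≤ (4 / x) ^ s := by
        apply pow_le_pow_left₀ (by positivity)
        apply div_le_div_of_nonneg_right _ hx0.le
        linarith
      have b6 : (4 / x) ^ s ≤ (ρ / (1 + x)) ^ k := by
        rw [← Real.rpow_natCast (4 / x) s, ← hηeq, ← Real.rpow_natCast ((4 / x) ^ (2 * η)) k,
          ← Real.rpow_mul (by positivity)]
        apply Real.rpow_le_rpow_of_exponent_le h4x.le
        linarith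
      have b7 : (1 + x) ^ k * (ρ / (1 + x)) ^ k = ρ ^ k := by
        rw [← mul_pow]; congr 1; field_simp
      calc (B g : ℝ) ≤ 2 ^ s * ((k + s).choose s : ℝ) := b1
        _ ≤ 2 ^ s * ((1 + x) ^ (k + s) / x ^ s) := mul_le_mul_of_nonneg_left b3 (by positivity)
        _ = (1 + x) ^ k * (2 * (1 + x) / x) ^ s := b4
        _ ≤ (1 + x) ^ k * (ρ / (1 + x)) ^ k :=
          mul_le_mul_of_nonneg_left (le_trans b5 b6) (by positivity)
        _ = ρ ^ k := b7
    calc (n : ℝ) * (B g : ℝ) / Wc = (n / Wc) * B g := by ring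
      _ ≤ (3 * k / (1 + ε / 2) ^ k) * ρ ^ k :=
        mul_le_mul hn hBg (by positivity) (by positivity)
      _ = 3 * k * θ ^ k := by rw [hθ, div_pow, hρ]; ring
  by_cases hne : ((Icc 2 (2 * R)).filter (fun g : ℕ => y ^ (1 + c / 2) < g)).Nonempty
  · obtain ⟨g0, hg0⟩ := hne
    rw [mem_filter, mem_Icc] at hg0
    obtain ⟨⟨_, hgR⟩, hgy⟩ := hg0
    have hgR' : (g0 : ℝ) ≤ 2 * R := by exact_mod_cast hgR
    have h1 : y ^ (c / 2) < 2 * k := by
      rw [hysplit, ] at hgy
      have : y * y ^ (c / 2) < y * (2 * k) := by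
        calc y * y ^ (c / 2) < g0 := hgy
          _ ≤ 2 * R := hgR'
          _ = y * (2 * k) := by rw [hRy]; ring
      exact lt_of_mul_lt_mul_left this hy0.le
    have h2 : y ≤ (2 * k) ^ m := by
      have e1 : y = (y ^ (c / 2)) ^ (2 / c) := by
        rw [← Real.rpow_mul hy0.le]
        have : c / 2 * (2 / c) = 1 := by field_simp
        rw [this, Real.rpow_one]
      have e2 : (y ^ (c / 2)) ^ (2 / c) ≤ (2 * (k : ℝ)) ^ (2 / c) :=
        Real.rpow_le_rpow (by positivity) h1.le (by positivity)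
      have e3 : (2 * (k : ℝ)) ^ (2 / c) ≤ (2 * (k : ℝ)) ^ (m : ℝ) :=
        Real.rpow_le_rpow_of_exponent_le (by linarith) hmc
      rw [Real.rpow_natCast] at e3
      linarith
    have h3 : (2 * R : ℝ) ≤ 2 * k * (2 * k) ^ m := by
      rw [hRy]
      nlinarith
    calc ∑ g ∈ (Icc 2 (2 * R)).filter (fun g : ℕ => y ^ (1 + c / 2) < g),
          (n : ℝ) * (B g : ℝ) / Wc
        ≤ ∑ _g ∈ (Icc 2 (2 * R)).filter (fun g : ℕ => y ^ (1 + c / 2) < g), 3 * k * θ ^ k :=
          Finset.sum_le_sum hterm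
      _ = (((Icc 2 (2 * R)).filter (fun g : ℕ => y ^ (1 + c / 2) < g)).card : ℝ)
          * (3 * k * θ ^ k) := by rw [Finset.sum_const, nsmul_eq_mul]
      _ ≤ (2 * R : ℝ) * (3 * k * θ ^ k) := by
          apply mul_le_mul_of_nonneg_right _ (by positivity)
          have : ((Icc 2 (2 * R)).filter (fun g : ℕ => y ^ (1 + c / 2) < g)).card ≤ 2 * R := by
            refine le_trans (Finset.card_filter_le _ _) ?_
            rw [Nat.card_Icc]; omega
          exact_mod_cast this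
      _ ≤ (2 * k * (2 * k) ^ m) * (3 * k * θ ^ k) :=
          mul_le_mul_of_nonneg_right h3 (by positivity)
      _ = 6 * 2 ^ m * ((k : ℝ) ^ (m + 2) * θ ^ k) := by rw [mul_pow, pow_add]; ring
      _ ≤ δ := hkδ
  · rw [Finset.not_nonempty_iff_eq_empty] at hne
    rw [hne, Finset.sum_empty]
    exact hδ.le

end Pool.Agent.X21.CY
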